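import Pool.Agent.Y174.U3
import Pool.Agent.Y174.V4
import Pool.Agent.Y174.W5
import Pool.Agent.Y179.OB.Easy

/-!
MP_2c56d9_ag, Q1: weak abundance for log canonical pairs with generically generated logarithmic
symmetric differentials: an explicit cyclic cover.
-/

set_option autoImplicit false

open FF IntermediateField Pool.Agent.W619.TW Pool.Agent.W619.Y Pool.Agent.W619.PQ Pool.Agent.Y174

namespace Pool.Agent.Results.MP_2c56d9_ag.LogDifferentialsCyclicCover

section mono

variable {k K : Type} [Field k] [Field K] [Algebra k K]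

theorem logFld_mono {B B' : Place k K → Prop} (h : ∀ v, B v → B' v) {v : Place k K}
    {D : Derivation k K K} (hD : LogFld B' v D) : LogFld B v D := by
  refine ⟨fun hB f hf => ?_, fun hB => hD.2 (h v hB)⟩
  by_cases hB' : B' v
  · by_cases hf0 : f = 0
    · rw [hf0, map_zero]; exact hf0 ▸ hf
    · have h1 := v.reg_mul hf (hD.2 hB' f)
      rwa [mul_div_cancel₀ _ hf0] at h1
  · exact hD.1 hB' f hf

theorem genGenLog_mono {B B' : Place k K → Prop} (h : ∀ v, B v → B' v) {n m : ℕ}
    (hg : GenGenLog k K n m B) : GenGenLog k K n m B' := by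
  intro s hs
  refine Submodule.span_mono ?_ (hg s hs)
  rintro s' ⟨h1, h2⟩
  exact ⟨h1, fun v hv D hD => h2 v hv D (logFld_mono h hD)⟩

end mono

/-- Let `(X, Δ)` be a projective log canonical pair with function field `K`, let `δ v` be minus the
discrepancy of the prime divisor `v` over `X` (cut off at `0`, so `δ v ≤ 1`; `δ` is bounded by finitely
many rational functions, `hG`), and let `X → W` be an algebraic fibre space, `W` with function field
`L`, `dim W = d`, `dim X = d + (r + 1)`, for instance the Iitaka fibration of `K_X + Δ`. Let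
`(F, Δ_F)` be the geometric generic fibre, over the algebraic closure `Λ` of `L`, with the
multiplicities `δF`, and let `m ≥ 1`. Symmetric differentials are logarithmic along the prime divisors
over `X` (over `F`) of multiplicity one, the log canonical places.

If the logarithmic symmetric differentials of degree `m` generate the `m`-th symmetric power of the
cotangent bundle of `X` at the generic point, then the same holds for `F`. If this holds for `F` and
`κ (K_F + Δ_F) ≤ 0`, then `κ (K_F + Δ_F) = 0` and there is `t ≠ 0` with `t ^ m ∈ F` such that the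
cyclic cover of `F` with the function field `M = F (t)` has `r + 1` independent logarithmic 1-forms,
with poles only over log canonical places, so it is of maximal quasi-Albanese dimension;
`κ (K_F + Δ_F)` is `κ` of the pulled back pair `(M, Δ_M)`, `ν (K_F + Δ_F) ≤ ν (K_M + Δ_M)` and
`ν (K_X + Δ) ≤ dim W + ν (K_M + Δ_M)`. -/
theorem result {L K Λ F : Type} [Field L] [Field K] [Field Λ] [Field F]
    -- the function fields of `W` and `X`
    [Algebra ℂ L] [Algebra ℂ K] [Algebra L K] [IsScalarTower ℂ L K]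
    [Algebra.EssFiniteType ℂ L] [Algebra.EssFiniteType ℂ K] {d r m : ℕ} (hm : 1 ≤ m)
    (hW : Algebra.trdeg ℂ L = d) (hX : Algebra.trdeg ℂ K = (d + (r + 1) : ℕ))
    (hLK : ∀ x : K, IsAlgebraic L x → x ∈ Set.range (algebraMap L K))
    -- the geometric generic fibre
    [Algebra L Λ] [IsAlgClosure L Λ] [Algebra Λ F] [Algebra K F] [Algebra L F]
    [IsScalarTower L Λ F] [IsScalarTower L K F] [Algebra ℂ Λ] [Algebra ℂ F]
    [IsScalarTower ℂ L Λ] [IsScalarTower ℂ Λ F] [IsScalarTower ℂ K F]
    (hF : IntermediateField.adjoin Λ (Set.range (algebraMap K F)) = ⊤)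
    -- the multiplicities of the pair and of its restriction to the geometric generic fibre
    {δ : Place ℂ K → ℝ} {G : Finset K}
    (hG : ∀ v : Place ℂ K, IsDivisorial v (d + (r + 1)) → ∃ g ∈ G, g ≠ 0 ∧ δ v ≤ (v.ord g : ℝ))
    {δF : Place Λ F → ℝ} (hδF : IsPullFib δ δF) (hδF0 : ∀ w, 0 ≤ δF w) :
    (GenGenLog ℂ K (d + (r + 1)) m (fun v => δ v = 1) →
      GenGenLog Λ F (r + 1) m (fun w => δF w = 1)) ∧
    (¬ PairKod Λ F (r + 1) δF 1 → GenGenLog Λ F (r + 1) m (fun w => δF w = 1) →
      ∃ t : AlgebraicClosure F, t ≠ 0 ∧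
        (∃ f : F, algebraMap F (AlgebraicClosure F) f = t ^ m) ∧
        (∃ η : Fin (r + 1) → (Derivation Λ F⟮t⟯ F⟮t⟯ →ₗ[F⟮t⟯] F⟮t⟯), LinearIndependent F⟮t⟯ η ∧
          ∀ i, ∀ w : Place Λ F⟮t⟯, IsDivisorial w (r + 1) → ∀ D : Derivation Λ F⟮t⟯ F⟮t⟯,
            LogFld (BdOn fun v => δF v = 1) w D → w.Reg (η i D)) ∧
        PairKod Λ F (r + 1) δF 0 ∧
        ∀ δM : Place Λ F⟮t⟯ → ℝ, IsPull δF δM →
          (∀ a, PairKod Λ F (r + 1) δF a ↔ PairKod Λ F⟮t⟯ (r + 1) δM a) ∧
          ∀ a, PairNum Λ F⟮t⟯ (r + 1) δM a →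
            PairNum Λ F (r + 1) δF a ∧ PairNum ℂ K (d + (r + 1)) δ (d + a)) := by
  have h1 : IsAlgClosed Λ := IsAlgClosure.isAlgClosed L
  have h2 : Algebra.IsAlgebraic L Λ := IsAlgClosure.isAlgebraic
  have hL0 : CharZero L := charZero_of_injective_algebraMap (algebraMap ℂ L).injective
  have hΛ0 : CharZero Λ := charZero_of_injective_algebraMap (algebraMap ℂ Λ).injective
  refine ⟨fun h => ?_, fun hκ hgen => ?_⟩
  · refine genGenLog_mono ?_ (gengen_fib ‹Algebra.EssFiniteType ℂ K› hW hX hF h)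
    rintro w ⟨v, e, hw, hv⟩
    rw [hδF v w e hw, hv, sub_self, mul_zero, sub_zero]
    exact max_eq_right zero_le_one
  · have hessF := ess_F (F := F) ‹Algebra.EssFiniteType ℂ K› hF
    have htr := trdeg_F (trdeg_LK (L := L) hW hX) hF
    obtain ⟨t, h3, h4, h5, h6, h7⟩ := main3L hessF htr hm (Bd := fun w => δF w = 1) hδF0
      (fun w hw => hw) hκ hgen
    refine ⟨t, h3, h4, h5, h6, fun δM hδM => ⟨(h7 δM hδM).1, fun a ha => ?_⟩⟩
    have h8 := (h7 δM hδM).2 a ha
    refine ⟨h8, Pool.Agent.Y179.OB.t_EASY ℂ L K Λ F ‹Algebra.EssFiniteType ℂ L›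
      ‹Algebra.EssFiniteType ℂ K› hF (fun x hx => hLK x hx.isAlgebraic) d r hW hX a δ δF hδF G hG
      h8⟩

end Pool.Agent.Results.MP_2c56d9_ag.LogDifferentialsCyclicCover
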