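import Pool.Agent.X180.Multi.Pair
import Pool.Agent.X180.Multi.Gap
import Pool.Agent.X327.MAMain

/-!
# Weak abundance for pairs over products of projective spaces with arbitrary arrangements, whose
fibres correspond to moving arrangements

For `i < m` let `ℓ i k = 0`, `k < q i`, be hyperplanes in projective `n i`-space, an arbitrary
arrangement which is not reducible. Let `(X, Δ)` be a projective pair (for instance log canonical),
`Γ ≥ 0` a divisor such that `K_X + Δ - Γ` is pseudo-effective (tested with the effective divisor
`A`; for instance `Γ = 0`), with a dominant rational map from `X` to the product of the projective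
spaces, of any relative dimension. A prime divisor of `X` is negligible if it is in the support of `Γ`
or in the diminished base locus of `K_X + Δ`. Suppose:

* (the base) if `v i k` are the multiplicities of the hyperplanes at a prime divisor `P` of `X` which
  is not negligible, not all zero, then `∑ i, v i (k i) / d i > 1 - Δ_P` for some choice of
  hyperplanes `k i`, one for each factor. Here `d i` is `n i + 2`, or only `n i + 1` if the
  arrangement in the factor does not consist of `n i + 2` hyperplanes in general position. The bounds
  do not depend on the numbers of the hyperplanes, there is no condition along the components of `Δ`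
  with coefficient `1`, and the multiplicities in the different factors are added;
* (the fibres) there is a correspondence between `X` and a relative product of projective spaces:
  a variety `X'` with a generically finite map `X' ⇢ X` (any finite extension `K'` of the function
  field `K`, ramified anywhere) and a generically finite map over the base of `X'` to
  `Y' × P^{r_1} × ... × P^{r_c}`, `r_j ≥ 1`, `Y'` finite over the base, and in each `P^{r_j}` there
  are any hyperplanes `A j i = 0`, in any position, which move with the point of `Y'`, with weights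
  `w j i` in `[0, 1]` such that the arrangement is log canonical: the sum of the weights of
  hyperplanes with a common point is at most the codimension of their intersection. If `Q` is a
  place of `K'` over a prime divisor `P` of `X` which dominates the base and is not negligible, with
  ramification index `ε`, and `e j i` are the multiplicities of the hyperplanes at `Q`, not all zero,
  then `ε (1 - Δ_P)` is at most `∑ (mx_j - ∑ w j i e j i)`, where `mx_j` is the greatest sum of
  `r_j + 1` of the `e j i` whose hyperplanes have no common point (and `ε (1 - Δ_P) ≤ 1`, if all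
  `e j i` are zero); and if `Q` is a place of `K'` over a prime divisor of
  `P^{r_1} × ... × P^{r_c}` over the base, with ramification index `ρ`, and over the place `P` of `K`,
  with ramification index `ε`, then `ρ - ε α ≤ ∑ w j i e j i`, where `α` is the log discrepancy of
  `(X, Δ)` along `P`.

Then `∑ i, w j i ≥ r_j + 1` for all `j`, and `κ(K_X + Δ') = ν(K_X + Δ') = ∑ i, n i + l`, where `l` is
the sum of the `r_j` with `∑ i, w j i > r_j + 1`, for all `ℚ`-divisors `Δ'` which are equal to `Δ`
outside of `Γ` and larger than `Δ - Γ` along `Γ`, in particular for `Δ' = Δ`. (If `K_X + Δ` is not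
pseudo-effective then `κ = ν = -∞`.) All conditions on the multiplicities are only needed outside of
the negligible divisors.

For instance, `X` may be the compactification of a variety with a dominant morphism to the product of
the complements of the arrangements and with boundary `Δ` over the arrangements, whose general fibre
is a log canonical pair `(P^r, ∑ w i H i)` with hyperplanes `H i`, or a quotient of a product of covers
of such pairs, of any variation and any log Kodaira dimension `≥ 0`.

The definitions `IsPair`, `PseudoEffective`, `Negligible`, `Above`, `Fibres`, `big` and `Abundance`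
are in `Pool.Agent.X327.MADefs`, `aff` and `BF` (the affine coordinates and the function field of the
product of the projective spaces) in `Pool.Agent.X180.Multi.Pair`; `Form`, `Reducible`:
`Pool/Agent/W602/Cov`.

The language and the definitions of `Pool.Agent.Y172` are used: `X` is given by the homogeneous
coordinates `y` of its generic point, with values in the function field `K` of `X`; the prime divisors
of `X` are places `P` of `K`, `P.ord` is the order along `P`; `kodairaDim` and `numericalDim` are the
literal definitions of the Kodaira and of the numerical dimension by means of the dimensions of the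
spaces of sections of `m (K_X + Δ)` and of `m (K_X + Δ) + A`.

Proof: for an irreducible arrangement there are weights on the bases of the matroid such that the
products of the forms `det (d log)` have a positive slack at all flats; the product of these
pluricanonical forms of the factors, as a form of the base, is estimated with any `∑ n i` vector
fields on `X`, and is multiplied by the norms to `K` of products of determinants of logarithmic
derivatives of the linear forms along the fibres of `X'` (`Pool.Agent.Y191.lc_low`); the products are
regular outside of the negligible divisors. The number of the sections of `m (K_X + Δ) + A'` is bounded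
by traces to the field of the relative product, and as `K_X + Δ - Γ` is pseudo-effective, the products
of the forms with sections of multiples of `K_X + Δ` which vanish along the negligible divisors to high
order are sections for all `Δ'` (`Pool.Agent.X327.lc_gam`).
-/

set_option autoImplicit false

open FF Module Pool.Agent.W602.Cov Pool.Agent.W602.GT Pool.Agent.Y172 Pool.Agent.Y191
open Pool.Agent.X327.MA Pool.Agent.X180.Multi

namespace Pool.Agent.Results.MP_2c56d9_ag.MultiprojectivePairs

section base

/-- In suitable linear coordinates `X 0, ..., X n` each of the hyperplanes is one of `X j = 0` or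
`X 0 + ... + X n = 0`. The arrangements with this property which are not reducible are, up to
repetitions, the arrangements of `n + 2` hyperplanes in general position. -/
def Simplicial {n q : ℕ} (ℓ : Fin q → Form n) : Prop :=
  ∃ X : Basis (Fin (n + 1)) ℂ (Form n), ∀ i,
    (∃ c : ℂ, ℓ i = c • ∑ j, X j) ∨ ∃ (j : Fin (n + 1)) (c : ℂ), ℓ i = c • X j

/-- The bound for one arrangement in projective `n`-space: `n + 2`, and even `n + 1` if the
arrangement does not consist of `n + 2` hyperplanes in general position. -/
def Bound {n q : ℕ} (ℓ : Fin q → Form n) (d : ℕ) : Prop :=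
  d = n + 2 ∨ (d = n + 1 ∧ ¬ Simplicial ℓ)

/-- The value of a linear form at a vector over `K`. -/
noncomputable def form {n : ℕ} {K : Type} [Field K] [Algebra ℂ K] (φ : Form n)
    (x : Fin (n + 1) → K) : K := ∑ j, algebraMap ℂ K (φ (Pi.single j 1)) * x j

variable {m : ℕ} {n q : Fin m → ℕ} {K : Type} [Field K] [Algebra ℂ K]

/-- The multiplicities over the arrangements, at the prime divisors `P` of `X` in the set `S`: the
hyperplane `ℓ i k` has the order `a i + v i k` at `P`, where `a i` is the minimum of the orders of all
linear forms on the `i`-th factor, and if some `v i k` is not `0` then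
`1 - Δ_P < ∑ i, v i (k i) / d i` for some `k`. -/
def Multiplicities (S : Set (Place ℂ K)) (Δ : Place ℂ K → ℚ) (ℓ : ∀ i, Fin (q i) → Form (n i))
    (x : ∀ i, Fin (n i + 1) → K) (d : Fin m → ℕ) : Prop :=
  ∀ P ∈ S, ∀ (a : Fin m → ℤ) (v : ∀ i, Fin (q i) → ℕ),
    (∀ i (φ : Form (n i)), form φ (x i) = 0 ∨ a i ≤ P.ord (form φ (x i))) →
    (∀ i, ∃ φ : Form (n i), form φ (x i) ≠ 0 ∧ P.ord (form φ (x i)) = a i) →
    (∀ i k, P.ord (form (ℓ i k) (x i)) = a i + v i k) → (∃ i, v i ≠ 0) →
    ∃ k : ∀ i, Fin (q i), 1 - Δ P < ∑ i, (v i (k i) : ℚ) / d i

end base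

/-- **Weak abundance.** Let `ℓ i` be arbitrary arrangements of hyperplanes, which are not reducible, in
projective spaces of dimensions `n i ≥ 1`, `d i` the bounds. Let `(X, Δ)` be a projective pair of
dimension `∑ i, n i + ∑ j, r j`, `Γ` and `A` effective divisors such that `K_X + Δ - Γ` is
pseudo-effective, with a dominant rational map to the product of the projective spaces, given by
homogeneous coordinates `x i`, such that `∑ i, v i (k i) / d i > 1 - Δ_P` for some `k` at each prime
divisor `P` of `X` over one of the hyperplanes which is not negligible, `v` being the multiplicities,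
and let the fibres be as in `Fibres`. Then `r j + 1 ≤ ∑ i, w j i` for all `j`, and
`κ(K_X + Δ') = ν(K_X + Δ')` is `∑ i, n i` plus the sum of the `r j` with `r j + 1 < ∑ i, w j i`, for
all `Δ'` which are equal to `Δ` outside of `Γ` and larger than `Δ - Γ` along `Γ`. -/
theorem result {m : ℕ} (n q : Fin m → ℕ) (hn : ∀ i, 1 ≤ n i)
    (ℓ : ∀ i, Fin (q i) → Form (n i)) (hℓ : ∀ i k, ℓ i k ≠ 0) (hr : ∀ i, ¬ Reducible (ℓ i))
    (d : Fin m → ℕ) (hd : ∀ i, Bound (ℓ i) (d i)) (K : Type) [Field K] [Algebra ℂ K]
    (N c : ℕ) (r s : Fin c → ℕ) (y : Fin (N + 1) → K) (Δ Γ A : Place ℂ K → ℚ)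
    (hy : IsPair y (∑ i, n i + ∑ j, r j) Δ) (hΓ : Effective y Γ) (hA : Effective y A)
    (hps : PseudoEffective y (∑ i, n i + ∑ j, r j) (Δ - Γ) A) (x : ∀ i, Fin (n i + 1) → K)
    (hx0 : ∀ i, x i 0 ≠ 0) (hind : AlgebraicIndependent ℂ (aff x))
    (hm : Multiplicities
      {P | IsPrimeDivisor y P ∧ ¬ Negligible y (∑ i, n i + ∑ j, r j) Δ Γ A P} Δ ℓ x d)
    (w : ∀ j, Fin (s j) → ℚ)
    (hF : Fibres y (∑ i, n i + ∑ j, r j) Δ
      {P | IsPrimeDivisor y P ∧ ¬ Negligible y (∑ i, n i + ∑ j, r j) Δ Γ A P} (BF x) r s w) :
    Abundance y (∑ i, n i + ∑ j, r j) Δ Γ (∑ i, n i) r s w := by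
  classical
  obtain ⟨hw, K', _, _, _, _, _, B, u, hB, hu, hH, hC⟩ := hF
  obtain ⟨κ, hκ, hκs⟩ := exists_idx r s w
  have hd' : ∀ i, Pool.Agent.TH756.PR.Bnd (ℓ i) (d i) := fun i =>
    (hd i).imp id fun h => ⟨h.1, Or.inr h.2⟩
  have hd1 : ∀ i, 1 ≤ d i := fun i => by
    rcases hd i with h | h
    · omega
    · omega
  have hspan : ∀ i, Submodule.span ℂ (Set.range (ℓ i)) = ⊤ := fun i =>
    Pool.Agent.W392.CG.span_top (hn i) (ℓ i) (hr i)
  have hlx : ∀ i k, Pool.Agent.W602.Cov.G.lf (ℓ i k) (x i) ≠ 0 := fun i k =>
    Pool.Agent.TH152.AC.lf_ne (hx0 i) (hind.comp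
      (fun j : Fin (n i) => (⟨i, j⟩ : (i : Fin m) × Fin (n i))) (fun j j' h => by simpa using h))
      (hℓ i k)
  obtain ⟨τ, hτ, hgap⟩ := gap d hd1
    (S := {P | IsPrimeDivisor y P ∧ ¬ Negligible y (∑ i, n i + ∑ j, r j) Δ Γ A P}) (Δ := Δ)
    (fun P hP => hy.2.2.1 P hP.1) (hy.2.2.2.subset fun P hP => ⟨hP.1.1, hP.2⟩)
  have hτ' : (1 : ℝ) < τ := by exact_mod_cast hτ
  refine abundance_of hy hΓ hA hps hw hB hu hC fun hws => ?_
  refine (multi_pair (X := {P | IsPrimeDivisor y P ∧
      ¬ Negligible y (∑ i, n i + ∑ j, r j) Δ Γ A P}) (δ := fun P => (Δ P : ℝ)) (τ := (τ : ℝ))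
    hn hℓ hr hd' hx0 hind hy.2.1 (fun P hP => Rat.cast_nonneg.2 (hy.2.2.1 P hP.1)) hτ'.le
    (fun P hPX _ a v hord hsp hv0 => ?_) (lc_low (N := ∑ i, n i + ∑ j, r j)
      (Pool.Agent.X180.Iso.trdeg_rel' hy.2.1 (trdeg_BF hind)) hB finSigmaFinEquiv hu
      (fun j i => ((hw j).2 i).1) hws hκ hκs (fun P hP => ?_)
      (Pool.Agent.X180.Iso.lcHor_hor hH))).2 hτ'
  · have h1 := Pool.Agent.TH756.PR.nrm hspan hlx hord hsp
    obtain ⟨k, hk⟩ := hm P hPX a v h1.1 h1.2.1 h1.2.2 hv0
    refine ⟨k, ?_⟩
    have h2 := hgap P hPX (fun i => v i (k i)) hk
    have h3 := (Rat.cast_le (K := ℝ)).2 h2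
    push_cast at h3
    exact h3
  · unfold Pool.Agent.X180.Iso.hor
    split_ifs
    · exact Rat.cast_nonneg.2 (hy.2.2.1 P hP.1)
    · exact le_rfl

end Pool.Agent.Results.MP_2c56d9_ag.MultiprojectivePairs
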