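import Pool.Agent.Y172.R8

/-!
# Weak abundance for log canonical pairs with very affine fibres over a base of log general type

Let `(X, Δ)` be a projective log canonical pair of dimension `n`, `Z → X` a finite cover, `Z ⇢ W` a
rational map onto a variety `W` of dimension `d` (`0 ≤ d ≤ n`), and suppose:

* (the base) some `M`-canonical forms on `W`, whose ratios generate a field of transcendence degree
  `d`, have, pulled back to `Z`, at most the poles which the pull back of `M (K_X + Δ)` allows, along
  the prime divisors of `Z` which do not dominate `W`;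
* (the fibres) the function field of `Z` is generated by functions `t j` and by functions which are
  algebraic over the function field of `W` (the generic fibre of `Z` over the normalization of `W` is
  generically a closed subvariety of a torus), and the zeros and poles of the `t j` which dominate
  `W` lie over the reduced part of `Δ`;
* (the ramification) the ramification index of `Z` over a prime divisor `P` of `X` is at most
  `1 / (1 - Δ P)`.

Then `κ(K_X + Δ) = ν(K_X + Δ)`. For `d = 0` this is weak abundance for all log canonical pairs such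
that a finite cover of `X`, with the ramification as above, has a generically finite rational map to
a torus which is given by functions without zeros and poles outside of the reduced part of `Δ`.

The conditions are needed only at the prime divisors `P` of `X` which are not in the base locus of
`m (K_X + Δ + η A)` for all `m ≥ 1` and all small `η ≥ 0` (`Diminished`). More generally, let `Γ ≥ 0`
be such that `K_X + Δ - Γ` is pseudo-effective. Then the conditions are needed only outside of `Γ`, and
`κ(K_X + Δ') = ν(K_X + Δ')` for all `Δ'` which are equal to `Δ` outside of `Γ` and larger than `Δ - Γ`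
along `Γ`.

The language and the definitions of `Pool.Agent.Y172` are used: `X` is given by the homogeneous
coordinates `y` of its generic point, with values in the function field `K` of `X`; the prime divisors
of `X` are places `P` of `K`, `P.ord` is the order along `P`; `kodairaDim` and `numericalDim` are the
literal definitions of the Kodaira and of the numerical dimension by means of the dimensions of the
spaces of sections of `m (K_X + Δ)` and of `m (K_X + Δ) + A`.
-/

set_option autoImplicit false

open FF Pool.Agent.W602.GT Pool.Agent.W603.LV Pool.Agent.W619.PQ Pool.Agent.Y172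

namespace Pool.Agent.Results.MP_2c56d9_ag.VeryAffineOverBase

/-- `K_X + D` is pseudo-effective, tested with the effective divisor `A`: the divisor
`m (K_X + D) + A` has a section `≠ 0` for arbitrarily large `m`. -/
def PseudoEffective {K : Type} [Field K] [Algebra ℂ K] {N : ℕ} (y : Fin (N + 1) → K) (n : ℕ)
    (D A : Place ℂ K → ℚ) : Prop :=
  ∀ m₁ : ℕ, ∃ m : ℕ, m₁ ≤ m ∧ ∃ s, IsSection y n m (m • D + A) s ∧ s ≠ 0

/-- The prime divisor `P` is negligible: it is in the support of `Γ`, or in the base locus of
`m (K_X + Δ + η A)` for all `m ≥ 1` and all small `η ≥ 0`. -/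
def Negligible {K : Type} [Field K] [Algebra ℂ K] {N : ℕ} (y : Fin (N + 1) → K) (n : ℕ)
    (Δ Γ A : Place ℂ K → ℚ) (P : Place ℂ K) : Prop :=
  Γ P ≠ 0 ∨ Diminished y n Δ A P

/-- The place `Q` dominates the variety with function field `F`. -/
def Horizontal {L : Type} [Field L] [Algebra ℂ L] (F : IntermediateField ℂ L) (Q : Place ℂ L) :
    Prop :=
  ∀ f ∈ F, f ≠ 0 → Q.ord f = 0

/-- The order at the place `Q` of the form `f (dx_1 ∧ ... ∧ dx_d) ^ M` is at least `c`: this is the
order of its values on vector fields which are regular at `Q`. -/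
def FormGe {L : Type} [Field L] [Algebra ℂ L] {d : ℕ} (x : Fin d → L) (M : ℕ) (f : L)
    (Q : Place ℂ L) (c : ℚ) : Prop :=
  ∀ G : Fin d → Derivation ℂ L L, (∀ j, DerReg Q (G j)) →
    f * (Matrix.of fun j l => G j (x l)).det ^ M = 0 ∨
      c ≤ Q.ord (f * (Matrix.of fun j l => G j (x l)).det ^ M)

/-- The `ℚ`-divisor `Δ'` is equal to `Δ` outside of the support of `Γ`, and larger than `Δ - Γ` along
all components of `Γ`. -/
def Above {K : Type} [Field K] [Algebra ℂ K] {N : ℕ} (y : Fin (N + 1) → K)
    (Δ Γ Δ' : Place ℂ K → ℚ) : Prop :=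
  ∀ P, IsPrimeDivisor y P → (Γ P = 0 → Δ' P = Δ P) ∧ (Γ P ≠ 0 → Δ P - Γ P < Δ' P)

/-- **Weak abundance.** Let `(X, Δ)` be a projective log canonical pair of dimension `n` with function
field `K`, `Γ` and `A` effective divisors on `X`, and `Z → X` a finite cover with function field `L`.
Let `F` be a subfield of `L` of transcendence degree `d` (the function field of `W`), `x` a
transcendence basis of `F`, and `φ 0, ..., φ d` elements of `F` such that the ratios `φ i / φ 0` are
algebraically independent. Let `L` be generated by functions `t j` and the elements which are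
algebraic over `F`. Assume for all prime divisors `P` of `X` which are not negligible and all prime
divisors `Q` of `Z` over `P`, with ramification index `e`: `e (1 - Δ P) ≤ 1`; if `Q` does not dominate
`W` then the forms `φ i (dx_1 ∧ ... ∧ dx_d) ^ M` have order at least `- M (1 - e (1 - Δ P))` at `Q`; and
if `Q` dominates `W` and some `t j` has a zero or pole at `Q` then `Δ P ≥ 1`.

(1) If `K_X + Δ` is not pseudo-effective then its Kodaira dimension and its numerical dimension
are `-∞`.

(2) If `K_X + Δ - Γ` is pseudo-effective then there is `κ ≥ d` such that the Kodaira dimension and the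
numerical dimension of `K_X + Δ'` are equal to `κ` for all `ℚ`-divisors `Δ'` (in particular for
`Δ' = Δ`) which are equal to `Δ` outside of `Γ` and larger than `Δ - Γ` along `Γ`, and such that the
divisors `G` on `X` which are effective only along `Γ` have Iitaka dimension at most `κ`.

In particular (`Γ = 0`) the Kodaira dimension and the numerical dimension of `K_X + Δ` are equal in
all cases. -/
theorem result {K L : Type} [Field K] [Field L] [Algebra ℂ K] [Algebra ℂ L] [Algebra K L]
    [IsScalarTower ℂ K L] [FiniteDimensional K L] {N n d M r : ℕ} {y : Fin (N + 1) → K}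
    (hy : NormalModel y) (hn : Algebra.trdeg ℂ K = n)
    {Δ : Place ℂ K → ℚ} (hΔ : Effective y Δ) (hLC : LogCanonical y n Δ)
    {Γ A : Place ℂ K → ℚ} (hΓ : Effective y Γ) (hA : Effective y A)
    {F : IntermediateField ℂ L} (hd : Algebra.trdeg ℂ F = d) {x : Fin d → L}
    (hxF : ∀ j, x j ∈ F) (hx : AlgebraicIndependent ℂ x) (hM : 0 < M) {φ : Fin (d + 1) → L}
    (hφF : ∀ i, φ i ∈ F) (hφ0 : φ 0 ≠ 0)
    (hφ : AlgebraicIndependent ℂ (fun i : Fin d => φ i.succ / φ 0))
    {t : Fin r → L} (ht : ∀ j, t j ≠ 0)
    (hgen : IntermediateField.adjoin ℂ ({z : L | IsAlgebraic F z} ∪ Set.range t) = ⊤)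
    (h : ∀ P, IsPrimeDivisor y P → ¬ Negligible y n Δ Γ A P →
      ∀ (Q : Place ℂ L) (e : ℕ), Over Q P e →
        (e : ℚ) * (1 - Δ P) ≤ 1 ∧
        (¬ Horizontal F Q → ∀ i, FormGe x M (φ i) Q (-(M * (1 - (e : ℚ) * (1 - Δ P))))) ∧
        (Horizontal F Q → (∃ j, Q.ord (t j) ≠ 0) → 1 ≤ Δ P)) :
    (¬ PseudoEffective y n Δ A → kodairaDim y n Δ = ⊥ ∧ numericalDim y n Δ A = ⊥) ∧
    (PseudoEffective y n (Δ - Γ) A →
      ∃ κ : ℕ, d ≤ κ ∧
        (∀ Δ' : Place ℂ K → ℚ, Above y Δ Γ Δ' → kodairaDim y n Δ' = (κ : WithBot ℕ) ∧
          ∀ A', Effective y A' → Integral y A' → numericalDim y n Δ' A' = (κ : EReal)) ∧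
        ∀ G : Place ℂ K → ℚ, (∀ P, IsPrimeDivisor y P → Γ P = 0 → G P ≤ 0) →
          iitakaDim y n G ≤ (κ : WithBot ℕ)) := by
  have hneg : ∀ P, Γ P = 0 → ¬ Diminished y n Δ A P → ¬ Negligible y n Δ Γ A P := by
    rintro P h1 h2 (h3 | h3)
    · exact h3 h1
    · exact h2 h3
  refine ⟨fun hps => not_psef hA hps, fun hps => ?_⟩
  obtain ⟨κ, h1, h2, h3⟩ := main5 (L := L) hy hn hΔ hLC hΓ hA hps hd hxF hx hM hφF hφ0 hφ
    (fun P hP h1 h2 Q e hQ h3 i G hG => (h P hP (hneg P h1 h2) Q e hQ).2.1 h3 i G hG) ht hgen
    (fun P hP h1 h2 Q e hQ h3 h4 => (h P hP (hneg P h1 h2) Q e hQ).2.2 h3 h4)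
    (fun P hP h1 h2 Q e hQ => (h P hP (hneg P h1 h2) Q e hQ).1)
  exact ⟨κ, h1, fun Δ' hΔ' => h2 Δ' (fun P hP => (hΔ' P hP).1) (fun P hP => (hΔ' P hP).2), h3⟩

end Pool.Agent.Results.MP_2c56d9_ag.VeryAffineOverBase
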